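import Mathlib

/-! Complete simple games, types, shift-minimal winning types, invariant trade robustness. -/

namespace Pool.Agent.P.MP_0d0d23_co

variable {N : Type} [DecidableEq N] {t : ℕ}

/-- `W` is the family of winning coalitions of a simple game: it is closed upwards. -/
def IsSimpleGame (W : Set (Finset N)) : Prop :=
  ∀ S T : Finset N, S ⊆ T → S ∈ W → T ∈ W

/-- Player `i` is at least as desirable as player `j`. -/
def AtLeastAsDesirable (W : Set (Finset N)) (i j : N) : Prop :=
  ∀ S : Finset N, i ∉ S → j ∉ S → insert j S ∈ W → insert i S ∈ W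

/-- The desirability relation is total. -/
def IsComplete (W : Set (Finset N)) : Prop :=
  ∀ i j : N, AtLeastAsDesirable W i j ∨ AtLeastAsDesirable W j i

/-- The fibres of `c` over `0, 1, ..., t - 1` are exactly the equivalence classes
`N_1 > ... > N_t` of the desirability relation, in this order. -/
def IsClassIndex (W : Set (Finset N)) (c : N → Fin t) : Prop :=
  Function.Surjective c ∧ ∀ i j : N, AtLeastAsDesirable W i j ↔ c i ≤ c j

/-- The type of a coalition: the number of its members in each class. -/
def typeOf (c : N → Fin t) (S : Finset N) : Fin t → ℕ :=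
  fun k => (S.filter (fun i => c i = k)).card

/-- `a ⪰ b`: every initial partial sum of `a` is at least that of `b`. -/
def Dominates (a b : Fin t → ℕ) : Prop :=
  ∀ k : Fin t, ∑ i ∈ Finset.Iic k, b i ≤ ∑ i ∈ Finset.Iic k, a i

/-- `a` is a winning type and every type strictly below it is losing. -/
def IsShiftMinimalWinningType (W : Set (Finset N)) (c : N → Fin t) (a : Fin t → ℕ) : Prop :=
  (∃ S ∈ W, typeOf c S = a) ∧
    ∀ T : Finset N, Dominates a (typeOf c T) → a ≠ typeOf c T → T ∉ W

/-- Every player lies in as many `X i` as `Y i`. -/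
def IsTradingTransform {j : ℕ} (X Y : Fin j → Finset N) : Prop :=
  ∀ p : N, (Finset.univ.filter (fun i => p ∈ X i)).card =
    (Finset.univ.filter (fun i => p ∈ Y i)).card

/-- No trading transform of length `1 ≤ j ≤ m` turns shift-minimal winning coalitions into
losing ones. -/
def InvariantTradeRobust (W : Set (Finset N)) (c : N → Fin t) (m : ℕ) : Prop :=
  ¬ ∃ j : ℕ, 1 ≤ j ∧ j ≤ m ∧ ∃ X Y : Fin j → Finset N, IsTradingTransform X Y ∧
    (∀ i, IsShiftMinimalWinningType W c (typeOf c (X i))) ∧ ∀ i, Y i ∉ W

end Pool.Agent.P.MP_0d0d23_co
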