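import Pool.Agent.P.MP_0d0d23_co.Defs

namespace Pool.Agent.P.MP_0d0d23_co

open Finset

section General

variable {N : Type} [DecidableEq N] {t : ℕ}

lemma typeOf_insert (c : N → Fin t) (S : Finset N) (i : N) (hi : i ∉ S) (k : Fin t) :
    typeOf c (insert i S) k = typeOf c S k + if c i = k then 1 else 0 := by
  unfold typeOf
  rw [Finset.filter_insert]
  split_ifs with h
  · rw [Finset.card_insert_of_notMem]
    simp [hi]
  · simp

omit [DecidableEq N] in
lemma typeOf_mono (c : N → Fin t) {S T : Finset N} (h : S ⊆ T) (k : Fin t) :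
    typeOf c S k ≤ typeOf c T k :=
  Finset.card_le_card (Finset.filter_subset_filter _ h)

lemma exists_type (c : N → Fin t) (A : Finset N) (v : Fin t → ℕ)
    (h : ∀ k, v k ≤ typeOf c A k) : ∃ S ⊆ A, typeOf c S = v := by
  have h1 : ∀ k, ∃ B ⊆ A.filter (fun i => c i = k), B.card = v k := fun k =>
    Finset.exists_subset_card_eq (h k)
  choose B hB hBc using h1
  refine ⟨Finset.univ.biUnion B, ?_, ?_⟩
  · intro x hx
    obtain ⟨k, -, hk⟩ := Finset.mem_biUnion.1 hx
    exact (Finset.mem_filter.1 (hB k hk)).1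
  · funext k
    rw [← hBc k]
    unfold typeOf
    congr 1
    ext x
    simp only [Finset.mem_filter, Finset.mem_biUnion, Finset.mem_univ, true_and]
    constructor
    · rintro ⟨⟨l, hl⟩, hx⟩
      have := (Finset.mem_filter.1 (hB l hl)).2
      rw [← hx, this]
      exact hl
    · intro hx
      exact ⟨⟨k, hx⟩, (Finset.mem_filter.1 (hB k hx)).2⟩

lemma sum_typeOf_eq [Fintype N] (c : N → Fin t) {j : ℕ} (X : Fin j → Finset N) (k : Fin t) :
    ∑ i, typeOf c (X i) k =
      ∑ p ∈ Finset.univ.filter (fun p => c p = k),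
        (Finset.univ.filter (fun i => p ∈ X i)).card := by
  have : ∀ i, typeOf c (X i) k =
      ∑ p ∈ Finset.univ.filter (fun p => c p = k), if p ∈ X i then 1 else 0 := by
    intro i
    unfold typeOf
    rw [← Finset.card_filter]
    congr 1
    ext x
    simp [and_comm]
  simp_rw [this]
  rw [Finset.sum_comm]
  refine Finset.sum_congr rfl fun p _ => ?_
  rw [Finset.card_filter]

lemma trade_sum [Fintype N] (c : N → Fin t) {j : ℕ} {X Y : Fin j → Finset N}
    (h : IsTradingTransform X Y) (k : Fin t) :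
    ∑ i, typeOf c (X i) k = ∑ i, typeOf c (Y i) k := by
  rw [sum_typeOf_eq, sum_typeOf_eq]
  exact Finset.sum_congr rfl fun p _ => h p

lemma dominates_three (a b : Fin 3 → ℕ) :
    Dominates a b ↔ b 0 ≤ a 0 ∧ b 0 + b 1 ≤ a 0 + a 1 ∧ b 0 + b 1 + b 2 ≤ a 0 + a 1 + a 2 := by
  unfold Dominates
  have h0 : (Finset.Iic (0 : Fin 3)) = {0} := by decide
  have h1 : (Finset.Iic (1 : Fin 3)) = {0, 1} := by decide
  have h2 : (Finset.Iic (2 : Fin 3)) = {0, 1, 2} := by decide
  rw [Fin.forall_fin_succ, Fin.forall_fin_two]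
  simp only [Fin.succ_zero_eq_one, Fin.succ_one_eq_two, h0, h1, h2]
  simp [add_assoc]

lemma eq_three (a b : Fin 3 → ℕ) : a = b ↔ a 0 = b 0 ∧ a 1 = b 1 ∧ a 2 = b 2 := by
  constructor
  · rintro rfl
    simp
  · rintro ⟨h0, h1, h2⟩
    funext k
    fin_cases k <;> simp [h0, h1, h2]

end General

section Game

variable (u D : ℕ)

/-- The players: `u + 2` of class one, `D` of class two, `(D + 2) * (u + 1) + 3` of class three. -/
abbrev Pl : Type := Fin (u + 2) ⊕ Fin D ⊕ Fin ((D + 2) * (u + 1) + 3)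

def cls : Pl u D → Fin 3
  | Sum.inl _ => 0
  | Sum.inr (Sum.inl _) => 1
  | Sum.inr (Sum.inr _) => 2

def win (a b c : ℕ) : Prop :=
  1 ≤ a ∧ (D + 2) * (u + 2) + 1 ≤ (D + 2) * a + b + c ∧ (a < u + 2 ∨ 1 ≤ b ∨ 2 ≤ c)

def game : Set (Finset (Pl u D)) :=
  {S | win u D (typeOf (cls u D) S 0) (typeOf (cls u D) S 1) (typeOf (cls u D) S 2)}

variable {u D}

lemma mem_game (S : Finset (Pl u D)) : S ∈ game u D ↔
    win u D (typeOf (cls u D) S 0) (typeOf (cls u D) S 1) (typeOf (cls u D) S 2) := Iff.rfl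

lemma typeOf_disjSum (A : Finset (Fin (u + 2))) (B : Finset (Fin D))
    (C : Finset (Fin ((D + 2) * (u + 1) + 3))) :
    typeOf (cls u D) (A.disjSum (B.disjSum C)) = ![A.card, B.card, C.card] := by
  funext k
  unfold typeOf
  fin_cases k
  · have : (A.disjSum (B.disjSum C)).filter (fun i => cls u D i = 0) =
        A.disjSum (∅ : Finset _) := by
      ext x
      rw [Finset.mem_filter]
      rcases x with x | x | x <;> simp [cls]
    simp [this]
  · have : (A.disjSum (B.disjSum C)).filter (fun i => cls u D i = 1) =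
        (∅ : Finset _).disjSum (B.disjSum (∅ : Finset _)) := by
      ext x
      rw [Finset.mem_filter]
      rcases x with x | x | x <;> simp [cls]
    simp [this]
  · have : (A.disjSum (B.disjSum C)).filter (fun i => cls u D i = 2) =
        (∅ : Finset _).disjSum ((∅ : Finset _).disjSum C) := by
      ext x
      rw [Finset.mem_filter]
      rcases x with x | x | x <;> simp [cls]
    simp [this]

lemma typeOf_univ : typeOf (cls u D) Finset.univ = ![u + 2, D, (D + 2) * (u + 1) + 3] := by
  have := typeOf_disjSum (u := u) (D := D) Finset.univ Finset.univ Finset.univ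
  simpa using this

lemma bound (S : Finset (Pl u D)) :
    typeOf (cls u D) S 0 ≤ u + 2 ∧ typeOf (cls u D) S 1 ≤ D ∧
      typeOf (cls u D) S 2 ≤ (D + 2) * (u + 1) + 3 := by
  have h := fun k => typeOf_mono (cls u D) (Finset.subset_univ S) k
  rw [typeOf_univ] at h
  exact ⟨by simpa using h 0, by simpa using h 1, by simpa using h 2⟩

lemma exists_of_bound (a b c : ℕ) (ha : a ≤ u + 2) (hb : b ≤ D)
    (hc : c ≤ (D + 2) * (u + 1) + 3) :
    ∃ S : Finset (Pl u D), typeOf (cls u D) S = ![a, b, c] := by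
  obtain ⟨S, -, hS⟩ := exists_type (cls u D) Finset.univ ![a, b, c] (by
    intro k
    rw [typeOf_univ]
    fin_cases k <;> simpa)
  exact ⟨S, hS⟩

lemma win_mono {a b c a' b' c' : ℕ} (ha : a ≤ a') (hb : b ≤ b') (hc : c ≤ c')
    (h : win u D a b c) : win u D a' b' c' := by
  obtain ⟨h1, h2, h3⟩ := h
  have := Nat.mul_le_mul_left (D + 2) ha
  refine ⟨by omega, by omega, ?_⟩
  rcases h3 with h3 | h3 | h3
  · have h4 : (D + 2) * a ≤ (D + 2) * (u + 1) := Nat.mul_le_mul_left _ (by omega)
    have h5 : (D + 2) * (u + 2) = (D + 2) * (u + 1) + (D + 2) := by ring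
    omega
  · omega
  · omega

lemma isSimpleGame : IsSimpleGame (game u D) := fun _ _ hST hS =>
  win_mono (typeOf_mono _ hST 0) (typeOf_mono _ hST 1) (typeOf_mono _ hST 2) hS

lemma empty_notMem : (∅ : Finset (Pl u D)) ∉ game u D := by
  intro h
  have := h.1
  simp [typeOf] at this

lemma univ_mem : (Finset.univ : Finset (Pl u D)) ∈ game u D := by
  rw [mem_game, typeOf_univ]
  refine ⟨by simp, by simp; omega, ?_⟩
  simp

lemma desirable_of_le (i j : Pl u D) (h : cls u D i ≤ cls u D j) :
    AtLeastAsDesirable (game u D) i j := by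
  intro S hi hj hS
  rw [mem_game] at hS ⊢
  have hb := (bound (insert i S)).1
  simp only [typeOf_insert _ _ _ hi, typeOf_insert _ _ _ hj] at hS hb ⊢
  generalize typeOf (cls u D) S 0 = a at *
  generalize typeOf (cls u D) S 1 = b at *
  generalize typeOf (cls u D) S 2 = c at *
  generalize cls u D i = x at *
  generalize cls u D j = y at *
  have h5 : (D + 2) * (u + 2) = (D + 2) * (u + 1) + (D + 2) := by ring
  have h6 : (D + 2) * (a + 1) = (D + 2) * a + (D + 2) := by ring
  fin_cases x <;> fin_cases y <;> simp at h hS hb ⊢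
  · exact hS
  · have h4 : (D + 2) * a ≤ (D + 2) * (u + 1) := Nat.mul_le_mul_left _ (by omega)
    unfold win at *
    omega
  · have h4 : (D + 2) * a ≤ (D + 2) * (u + 1) := Nat.mul_le_mul_left _ (by omega)
    unfold win at *
    omega
  · exact hS
  · unfold win at *
    omega
  · exact hS

lemma le_of_desirable (i j : Pl u D) (h : AtLeastAsDesirable (game u D) i j) :
    cls u D i ≤ cls u D j := by
  by_contra hlt
  have hij : i ≠ j := by
    rintro rfl
    exact hlt le_rfl
  set A : Finset (Pl u D) := (Finset.univ.erase i).erase j with hA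
  have hjA : j ∉ A := by simp [hA]
  have hiA : i ∉ insert j A := by simp [hA, hij]
  have hU : insert i (insert j A) = Finset.univ := by
    ext x
    simp only [hA, Finset.mem_insert, Finset.mem_erase, Finset.mem_univ]
    tauto
  have hT : ∀ k, typeOf (cls u D) A k + (if cls u D j = k then 1 else 0)
      + (if cls u D i = k then 1 else 0) = ![u + 2, D, (D + 2) * (u + 1) + 3] k := by
    intro k
    rw [← typeOf_univ, ← hU, typeOf_insert _ _ _ hiA, typeOf_insert _ _ _ hjA]
  have key : ∀ v : Fin 3 → ℕ, (∀ k, v k ≤ typeOf (cls u D) A k) →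
      win u D (v 0 + if cls u D j = 0 then 1 else 0) (v 1 + if cls u D j = 1 then 1 else 0)
        (v 2 + if cls u D j = 2 then 1 else 0) →
      win u D (v 0 + if cls u D i = 0 then 1 else 0) (v 1 + if cls u D i = 1 then 1 else 0)
        (v 2 + if cls u D i = 2 then 1 else 0) := by
    intro v hv hw
    obtain ⟨S, hSA, hS⟩ := exists_type (cls u D) A v hv
    have hiS : i ∉ S := fun hx => hiA (Finset.mem_insert_of_mem (hSA hx))
    have hjS : j ∉ S := fun hx => hjA (hSA hx)
    have := h S hiS hjS (by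
      rw [mem_game]
      simp only [typeOf_insert _ _ _ hjS, hS]
      exact hw)
    rw [mem_game] at this
    simp only [typeOf_insert _ _ _ hiS, hS] at this
    exact this
  have h0 := hT 0
  have h1 := hT 1
  have h2 := hT 2
  have h5 : (D + 2) * (u + 2) = (D + 2) * (u + 1) + (D + 2) := by ring
  have k1 := key ![0, 0, (D + 2) * (u + 1) + 1]
  have k2 := key ![u + 2, 0, 0]
  simp only [Fin.forall_fin_succ] at k1 k2
  generalize cls u D i = x at *
  generalize cls u D j = y at *
  unfold win at k1 k2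
  fin_cases x <;> fin_cases y <;> simp at hlt h0 h1 h2 k1 k2
  · omega
  · omega
  · omega

lemma isComplete : IsComplete (game u D) := fun i j =>
  (le_total (cls u D i) (cls u D j)).imp (desirable_of_le i j) (desirable_of_le j i)

lemma isClassIndex (hD : 1 ≤ D) : IsClassIndex (game u D) (cls u D) := by
  refine ⟨?_, fun i j => ⟨le_of_desirable i j, desirable_of_le i j⟩⟩
  intro k
  fin_cases k
  · exact ⟨Sum.inl 0, rfl⟩
  · exact ⟨Sum.inr (Sum.inl ⟨0, hD⟩), rfl⟩
  · exact ⟨Sum.inr (Sum.inr 0), rfl⟩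

lemma shiftMin_iff (hD : 1 ≤ D) (v : Fin 3 → ℕ) :
    IsShiftMinimalWinningType (game u D) (cls u D) v ↔
      (1 ≤ v 0 ∧ v 0 ≤ u + 1 ∧ v 1 = 0 ∧ (D + 2) * v 0 + v 2 = (D + 2) * (u + 2) + 1) ∨
      (v 0 = u + 2 ∧ v 1 = 1 ∧ v 2 = 0) ∨ (v 0 = u + 2 ∧ v 1 = 0 ∧ v 2 = 2) := by
  have h5 : (D + 2) * (u + 2) = (D + 2) * (u + 1) + (D + 2) := by ring
  constructor
  · rintro ⟨⟨S, hS, rfl⟩, hmin⟩
    have hb := bound S
    rw [mem_game] at hS
    have key : ∀ a b c : ℕ, a ≤ u + 2 → b ≤ D → c ≤ (D + 2) * (u + 1) + 3 → win u D a b c →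
        a ≤ typeOf (cls u D) S 0 → a + b ≤ typeOf (cls u D) S 0 + typeOf (cls u D) S 1 →
        a + b + c ≤ typeOf (cls u D) S 0 + typeOf (cls u D) S 1 + typeOf (cls u D) S 2 →
        typeOf (cls u D) S 0 = a ∧ typeOf (cls u D) S 1 = b ∧ typeOf (cls u D) S 2 = c := by
      intro a b c ha hb hc hw d0 d1 d2
      obtain ⟨T, hT⟩ := exists_of_bound a b c ha hb hc
      by_contra hne
      refine hmin T ?_ ?_ ?_
      · rw [dominates_three, hT]
        simpa using ⟨d0, d1, d2⟩
      · rw [Ne, eq_three, hT]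
        simpa using hne
      · rw [mem_game, hT]
        simpa using hw
    generalize typeOf (cls u D) S 0 = a at *
    generalize typeOf (cls u D) S 1 = b at *
    generalize typeOf (cls u D) S 2 = c at *
    obtain ⟨w1, w2, w3⟩ := hS
    by_cases ha : a ≤ u + 1
    · have h4 : (D + 2) * a ≤ (D + 2) * (u + 1) := Nat.mul_le_mul_left _ ha
      have h7 : (D + 2) * 1 ≤ (D + 2) * a := Nat.mul_le_mul_left _ w1
      have := key a 0 ((D + 2) * (u + 2) + 1 - (D + 2) * a) (by omega) (by omega) (by omega)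
        ⟨w1, by omega, by omega⟩ (by omega) (by omega) (by omega)
      omega
    · have ha' : a = u + 2 := by omega
      subst ha'
      by_cases hb1 : 1 ≤ b
      · have := key (u + 2) 1 0 (by omega) (by omega) (by omega)
          ⟨w1, by omega, by omega⟩ (by omega) (by omega) (by omega)
        omega
      · have := key (u + 2) 0 2 (by omega) (by omega) (by omega)
          ⟨w1, by omega, by omega⟩ (by omega) (by omega) (by omega)
        omega
  · intro hv
    constructor
    · have h7 : 1 ≤ v 0 → (D + 2) * 1 ≤ (D + 2) * v 0 := fun h => Nat.mul_le_mul_left _ h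
      obtain ⟨S, hS⟩ := exists_of_bound (u := u) (D := D) (v 0) (v 1) (v 2) (by omega) (by omega)
        (by omega)
      refine ⟨S, ?_, ?_⟩
      · rw [mem_game, hS]
        simp only [Matrix.cons_val_zero, Matrix.cons_val_one, Matrix.cons_val]
        rcases hv with hv | hv | hv
        · exact ⟨by omega, by omega, by omega⟩
        · rw [hv.1]
          exact ⟨by omega, by omega, by omega⟩
        · rw [hv.1]
          exact ⟨by omega, by omega, by omega⟩
      · rw [hS, eq_three]
        simp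
    · intro T hd hne hT
      rw [dominates_three] at hd
      rw [Ne, eq_three] at hne
      rw [mem_game] at hT
      generalize typeOf (cls u D) T 0 = a at *
      generalize typeOf (cls u D) T 1 = b at *
      generalize typeOf (cls u D) T 2 = c at *
      obtain ⟨w1, w2, w3⟩ := hT
      obtain ⟨d0, d1, d2⟩ := hd
      by_cases ha : a = v 0
      · subst ha
        rcases hv with hv | hv | hv
        · omega
        · omega
        · omega
      · obtain ⟨e, he⟩ : ∃ e, v 0 = a + (e + 1) := ⟨v 0 - a - 1, by omega⟩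
        have h8 : (D + 2) * v 0 = (D + 2) * a + (D + 1) * e + (D + 1) + (e + 1) := by
          rw [he]; ring
        rcases hv with hv | hv | hv
        · omega
        · rw [← hv.1] at w2
          omega
        · rw [← hv.1] at w2
          omega

lemma ncard_shiftMin (hD : 1 ≤ D) :
    {v | IsShiftMinimalWinningType (game u D) (cls u D) v}.ncard = u + 3 := by
  have h5 : (D + 2) * (u + 2) = (D + 2) * (u + 1) + (D + 2) := by ring
  have : {v | IsShiftMinimalWinningType (game u D) (cls u D) v} =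
      ((insert ![u + 2, 1, 0] (insert ![u + 2, 0, 2] ((Finset.Icc 1 (u + 1)).image
        (fun a => (![a, 0, (D + 2) * (u + 2) + 1 - (D + 2) * a] : Fin 3 → ℕ)))) :
          Finset (Fin 3 → ℕ)) : Set (Fin 3 → ℕ)) := by
    ext v
    simp only [Set.mem_ofPred_eq, shiftMin_iff hD, Finset.coe_insert, Set.mem_insert_iff,
      Finset.coe_image, Set.mem_image, Finset.mem_coe, Finset.mem_Icc, eq_three]
    simp only [Matrix.cons_val_zero, Matrix.cons_val_one, Matrix.cons_val]
    constructor
    · rintro (h | h | h)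
      · exact Or.inr (Or.inr ⟨v 0, ⟨h.1, h.2.1⟩, rfl, h.2.2.1.symm, by omega⟩)
      · exact Or.inl h
      · exact Or.inr (Or.inl h)
    · rintro (h | h | ⟨a, ⟨h1, h2⟩, rfl, h3, h4⟩)
      · exact Or.inr (Or.inl h)
      · exact Or.inr (Or.inr h)
      · have h6 : (D + 2) * v 0 ≤ (D + 2) * (u + 1) := Nat.mul_le_mul_left _ h2
        exact Or.inl ⟨h1, h2, h3.symm, by omega⟩
  rw [this, Set.ncard_coe_finset, Finset.card_insert_of_notMem, Finset.card_insert_of_notMem,
    Finset.card_image_of_injective]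
  · simp
  · intro a b hab
    simpa using congrFun hab 0
  · simp only [Finset.mem_image, Finset.mem_Icc, eq_three]
    simp
  · simp only [Finset.mem_insert, Finset.mem_image, Finset.mem_Icc, eq_three]
    simp

lemma robust (hD : 1 ≤ D) : InvariantTradeRobust (game u D) (cls u D) (D + 1) := by
  rintro ⟨j, hj1, hj2, X, Y, hXY, hX, hY⟩
  have h5 : (D + 2) * (u + 2) = (D + 2) * (u + 1) + (D + 2) := by ring
  have s0 := trade_sum (cls u D) hXY 0
  have s1 := trade_sum (cls u D) hXY 1
  have s2 := trade_sum (cls u D) hXY 2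
  simp only [shiftMin_iff hD] at hX
  simp only [mem_game] at hY
  have hb := fun i => bound (Y i)
  set x0 : Fin j → ℕ := fun i => typeOf (cls u D) (X i) 0 with hx0
  set x1 : Fin j → ℕ := fun i => typeOf (cls u D) (X i) 1 with hx1
  set x2 : Fin j → ℕ := fun i => typeOf (cls u D) (X i) 2 with hx2
  set y0 : Fin j → ℕ := fun i => typeOf (cls u D) (Y i) 0 with hy0
  set y1 : Fin j → ℕ := fun i => typeOf (cls u D) (Y i) 1 with hy1
  set y2 : Fin j → ℕ := fun i => typeOf (cls u D) (Y i) 2 with hy2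
  replace hX : ∀ i, (1 ≤ x0 i ∧ x0 i ≤ u + 1 ∧ x1 i = 0 ∧
      (D + 2) * x0 i + x2 i = (D + 2) * (u + 2) + 1) ∨
      (x0 i = u + 2 ∧ x1 i = 1 ∧ x2 i = 0) ∨ (x0 i = u + 2 ∧ x1 i = 0 ∧ x2 i = 2) := hX
  replace hY : ∀ i, ¬ win u D (y0 i) (y1 i) (y2 i) := hY
  replace hb : ∀ i, y0 i ≤ u + 2 ∧ y1 i ≤ D ∧ y2 i ≤ (D + 2) * (u + 1) + 3 := hb
  replace s0 : ∑ i, x0 i = ∑ i, y0 i := s0
  replace s1 : ∑ i, x1 i = ∑ i, y1 i := s1
  replace s2 : ∑ i, x2 i = ∑ i, y2 i := s2
  clear_value x0 x1 x2 y0 y1 y2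
  have hXq : ∀ i, (D + 2) * (u + 2) + 1 ≤ (D + 2) * x0 i + x1 i + x2 i := by
    intro i
    rcases hX i with h | h | h
    · omega
    · rw [h.1]; omega
    · rw [h.1]; omega
  have hYq : ∀ i, (D + 2) * y0 i + y1 i + y2 i ≤ (D + 2) * (u + 2) + 1 := by
    intro i
    have h1 := hY i
    have h2 := hb i
    unfold win at h1
    by_cases h0 : y0 i = 0
    · rw [h0]; omega
    · by_cases h3 : y0 i = u + 2
      · rw [h3] at h1 ⊢; omega
      · omega
  have hs : ∑ i, ((D + 2) * x0 i + x1 i + x2 i) = ∑ i, ((D + 2) * y0 i + y1 i + y2 i) := by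
    simp only [Finset.sum_add_distrib, ← Finset.mul_sum, s0, s1, s2]
  have hle : ∀ i ∈ (Finset.univ : Finset (Fin j)),
      (D + 2) * y0 i + y1 i + y2 i ≤ (D + 2) * x0 i + x1 i + x2 i :=
    fun i _ => (hYq i).trans (hXq i)
  have heq := (Finset.sum_eq_sum_iff_of_le hle).1 hs.symm
  have hX' : ∀ i, u + 2 + (u + 1) * x1 i ≤ x0 i + (u + 1) ∧ x0 i ≤ u + 1 + x1 i := by
    intro i
    have e := heq i (Finset.mem_univ i)
    have e1 := hYq i
    rcases hX i with h | h | h
    · rw [h.2.2.1]; omega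
    · rw [h.2.1]; omega
    · rw [h.1] at e; omega
  have hY' : ∀ i, y1 i = D * (if y0 i = 0 then 1 else 0) ∧
      y0 i + (u + 2) * (if y0 i = 0 then 1 else 0) = u + 2 := by
    intro i
    have e := heq i (Finset.mem_univ i)
    have e1 := hXq i
    have h1 := hY i
    have h2 := hb i
    unfold win at h1
    by_cases h0 : y0 i = 0
    · rw [h0] at e ⊢
      simp only [if_true]
      omega
    · simp only [h0, if_false]
      omega
  set δ : ℕ := ∑ i, (if y0 i = 0 then 1 else 0) with hδ
  have a1 : ∑ i, y1 i = D * δ := by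
    rw [hδ, Finset.mul_sum]
    exact Finset.sum_congr rfl fun i _ => (hY' i).1
  have a2 : ∑ i, y0 i + (u + 2) * δ = j * (u + 2) := by
    rw [hδ, Finset.mul_sum, ← Finset.sum_add_distrib, Finset.sum_congr rfl fun i _ => (hY' i).2]
    simp
  have a3 : j * (u + 2) + (u + 1) * ∑ i, x1 i ≤ ∑ i, x0 i + j * (u + 1) := by
    have := Finset.sum_le_sum (s := Finset.univ) fun i _ => (hX' i).1
    simpa [Finset.sum_add_distrib, ← Finset.mul_sum, mul_add] using this
  have a4 : ∑ i, x0 i ≤ j * (u + 1) + ∑ i, x1 i := by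
    have := Finset.sum_le_sum (s := Finset.univ) fun i _ => (hX' i).2
    simpa [Finset.sum_add_distrib, mul_add] using this
  rw [s0, s1, a1] at a3 a4
  generalize ∑ i, y0 i = s at *
  have hδ1 : 1 ≤ δ := by
    by_contra h
    have : δ = 0 := by omega
    rw [this] at a2 a4
    nlinarith
  have b1 : (u + 2) * δ + (u + 1) * (D * δ) ≤ j * (u + 1) := by omega
  have b2 : j * (u + 1) ≤ (D + 1) * (u + 1) := Nat.mul_le_mul_right _ hj2
  have b3 : (u + 1) * (D * 1) ≤ (u + 1) * (D * δ) :=
    Nat.mul_le_mul_left _ (Nat.mul_le_mul_left _ hδ1)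
  nlinarith

/-- The first `D + 1` players of class three. -/
def tt (u D : ℕ) (k : Fin (D + 1)) : Fin ((D + 2) * (u + 1) + 3) :=
  ⟨k, by have := k.2; nlinarith⟩

lemma tt_injective : Function.Injective (tt u D) := by
  intro a b h
  apply Fin.ext
  simpa [tt] using congrArg Fin.val h

def lastTwo (u D : ℕ) : Finset (Fin ((D + 2) * (u + 1) + 3)) :=
  {⟨(D + 2) * (u + 1) + 1, by omega⟩, ⟨(D + 2) * (u + 1) + 2, by omega⟩}

lemma card_lastTwo : (lastTwo u D).card = 2 := by
  unfold lastTwo
  rw [Finset.card_pair]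
  simp

lemma tt_notMem (k : Fin (D + 1)) : tt u D k ∉ lastTwo u D := by
  have h1 := k.2
  have h2 : (D + 2) * 1 ≤ (D + 2) * (u + 1) := Nat.mul_le_mul_left _ (by omega)
  simp only [lastTwo, tt, Finset.mem_insert, Finset.mem_singleton, Fin.mk.injEq]
  omega

def XX (u D : ℕ) : Fin (D + 2) → Finset (Pl u D) :=
  Fin.cons (({0} : Finset _).disjSum ((∅ : Finset _).disjSum (lastTwo u D)ᶜ))
    (Fin.cons ((({0} : Finset _)ᶜ).disjSum ((∅ : Finset _).disjSum
        (Finset.univ.image (tt u D) ∪ lastTwo u D)))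
      (fun k => Finset.univ.disjSum (({k} : Finset _).disjSum ∅)))

def YY (u D : ℕ) : Fin (D + 2) → Finset (Pl u D) :=
  Fin.cons ((∅ : Finset _).disjSum (Finset.univ.disjSum Finset.univ))
    (fun k => Finset.univ.disjSum ((∅ : Finset _).disjSum {tt u D k}))

lemma trade : IsTradingTransform (XX u D) (YY u D) := by
  intro p
  rw [Finset.card_filter, Finset.card_filter, Fin.sum_univ_succ, Fin.sum_univ_succ,
    Fin.sum_univ_succ (n := D + 1)]
  simp only [XX, YY, Fin.cons_zero, Fin.cons_succ]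
  rcases p with x | x | x
  · by_cases hx : x = 0 <;> simp [hx, add_comm]
  · simp
  · by_cases hx : ∃ k, tt u D k = x
    · obtain ⟨k, rfl⟩ := hx
      simp [tt_notMem, tt_injective.eq_iff]
    · have h1 : ∀ k, x ≠ tt u D k := fun k h => hx ⟨k, h.symm⟩
      have h2 : ∀ k, tt u D k ≠ x := fun k h => hx ⟨k, h⟩
      by_cases h3 : x ∈ lastTwo u D <;> simp [h1, h2, h3]

lemma not_robust (hD : 1 ≤ D) : ¬ InvariantTradeRobust (game u D) (cls u D) (D + 2) := by
  intro h
  refine h ⟨D + 2, by omega, le_rfl, XX u D, YY u D, trade, ?_, ?_⟩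
  · intro i
    rw [shiftMin_iff hD]
    refine Fin.cases ?_ (fun i => Fin.cases ?_ (fun k => ?_) i) i
    · simp only [XX, Fin.cons_zero, typeOf_disjSum]
      left
      simp [Finset.card_compl, card_lastTwo]
      ring
    · simp only [XX, Fin.cons_zero, Fin.cons_succ, typeOf_disjSum]
      left
      have hdis : Disjoint (Finset.univ.image (tt u D)) (lastTwo u D) := by
        rw [Finset.disjoint_left]
        intro x hx
        obtain ⟨k, -, rfl⟩ := Finset.mem_image.1 hx
        exact tt_notMem k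
      simp [Finset.card_compl, Finset.card_union_of_disjoint hdis, card_lastTwo,
        Finset.card_image_of_injective _ tt_injective]
      ring
    · simp only [XX, Fin.cons_succ, typeOf_disjSum]
      right; left
      simp
  · intro i
    rw [mem_game]
    refine Fin.cases ?_ (fun k => ?_) i
    · simp only [YY, Fin.cons_zero, typeOf_disjSum]
      simp [win]
    · simp only [YY, Fin.cons_succ, typeOf_disjSum]
      simp [win]

end Game

end Pool.Agent.P.MP_0d0d23_co
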